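import Pool.Agent.MP_ef83ea_ag.Hasse

/-!
The key inequality over a perfect field of prime characteristic.
-/

set_option autoImplicit false

namespace Pool.Agent.MP_ef83ea_ag

open MvPolynomial Finsupp

variable {σ : Type*} {F : Type*} [Field F] {p : ℕ} [Fact p.Prime] [CharP F p]

theorem choose_mul_add (e n b a : ℕ) (ha : a < p ^ e) :
    (((p ^ e * n + b).choose a : ℕ) : F) = (b.choose a : ℕ) := by
  induction n with
  | zero => simp
  | succ n ih =>
    have : p ^ e * (n + 1) + b = p ^ e + (p ^ e * n + b) := by ring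
    rw [this, Nat.add_choose_eq, Nat.cast_sum, Finset.sum_eq_single (0, a)]
    · simp [ih]
    · rintro ⟨i, j⟩ hij hne
      rw [Finset.HasAntidiagonal.mem_antidiagonal] at hij
      simp only at hij
      have hi : i ≠ 0 := by
        rintro rfl
        apply hne
        simp [← hij]
      have hd : p ∣ (p ^ e).choose i :=
        (Fact.out : p.Prime).dvd_choose_pow hi (by omega)
      have : (((p ^ e).choose i : ℕ) : F) = 0 := (CharP.cast_eq_zero_iff F p _).2 hd
      simp [this]
    · intro h
      simp at h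

theorem choose_mod (e c a : ℕ) (ha : a < p ^ e) :
    ((c.choose a : ℕ) : F) = ((c % p ^ e).choose a : ℕ) := by
  conv_lhs => rw [← Nat.div_add_mod c (p ^ e)]
  exact choose_mul_add e _ _ a ha

theorem pow_eq_sum (e : ℕ) (G : MvPolynomial σ F) :
    G ^ p ^ e = ∑ γ ∈ G.support, monomial (p ^ e • γ) (coeff γ G ^ p ^ e) := by
  conv_lhs => rw [G.as_sum]
  rw [sum_pow_char_pow]
  simp [monomial_pow]

theorem coeff_smul_pow (e : ℕ) (G : MvPolynomial σ F) (γ : σ →₀ ℕ) :
    coeff (p ^ e • γ) (G ^ p ^ e) = coeff γ G ^ p ^ e := by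
  classical
  have hq : p ^ e ≠ 0 := pow_ne_zero _ (Fact.out : p.Prime).ne_zero
  rw [pow_eq_sum, coeff_sum, Finset.sum_eq_single γ]
  · simp
  · intro b _ hb
    rw [coeff_monomial, if_neg]
    intro h
    apply hb
    ext i
    have := DFunLike.congr_fun h i
    simp only [Finsupp.coe_smul, Pi.smul_apply, smul_eq_mul] at this
    exact Nat.eq_of_mul_eq_mul_left (Nat.pos_of_ne_zero hq) this
  · intro h
    rw [MvPolynomial.notMem_support_iff] at h
    rw [h, zero_pow hq]
    simp

theorem totalDegree_pow_char (e : ℕ) (G : MvPolynomial σ F) :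
    p ^ e * G.totalDegree ≤ (G ^ p ^ e).totalDegree := by
  by_cases hG : G = 0
  · simp [hG]
  obtain ⟨s, hs, h2⟩ := exists_degree_eq_totalDegree hG
  rw [← h2]
  have : p ^ e • s ∈ (G ^ p ^ e).support := by
    rw [MvPolynomial.mem_support_iff] at hs ⊢
    rw [coeff_smul_pow]
    exact pow_ne_zero _ hs
  have := degree_le_totalDegree this
  rwa [map_nsmul, smul_eq_mul] at this

theorem Ord.of_pow_char (e : ℕ) {P : σ → F} {G : MvPolynomial σ F} {n u : ℕ}
    (h : Ord P n (G ^ p ^ e)) (hu : ∀ k < u, p ^ e * k < n) : Ord P u G := by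
  rw [ord_iff] at *
  intro x hx
  have := h (p ^ e • x) (by rw [map_nsmul, smul_eq_mul]; exact hu _ hx)
  rw [map_pow, coeff_smul_pow] at this
  exact pow_eq_zero_iff (pow_ne_zero _ (Fact.out : p.Prime).ne_zero) |>.1 this

theorem exists_root [PerfectRing F p] (e : ℕ) (H : MvPolynomial σ F)
    (hdiv : ∀ β ∈ H.support, ∀ i, p ^ e ∣ β i) : ∃ G : MvPolynomial σ F, H = G ^ p ^ e := by
  refine ⟨∑ β ∈ H.support, monomial (β.mapRange (· / p ^ e) (Nat.zero_div _))
    ((iterateFrobeniusEquiv F p e).symm (coeff β H)), ?_⟩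
  rw [sum_pow_char_pow]
  conv_lhs => rw [H.as_sum]
  refine Finset.sum_congr rfl fun β hβ => ?_
  rw [monomial_pow]
  congr 1
  · congr 1
    ext i
    simp [Nat.mul_div_cancel' (hdiv β hβ i)]
  · rw [← iterateFrobeniusEquiv_def, RingEquiv.apply_symm_apply]

/-- One derivative, in prime characteristic. -/
theorem exists_deriv [Fintype σ] [PerfectRing F p] (G : MvPolynomial σ F)
    (hG : G.totalDegree ≠ 0) : ∃ h : MvPolynomial σ F, h ≠ 0 ∧ h.totalDegree + 1 ≤ G.totalDegree ∧
      ∀ (P : σ → F) (n : ℕ), Ord P (n + 1) G → Ord P n h := by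
  classical
  have hp : p.Prime := Fact.out
  induction hd : G.totalDegree using Nat.strong_induction_on generalizing G with
  | _ d ih =>
  subst hd
  by_cases hex : ∃ β ∈ G.support, ∃ i, ¬ p ∣ β i
  · obtain ⟨β, hβ, i, hi⟩ := hex
    have hi0 : β i ≠ 0 := by
      intro h
      apply hi
      simp [h]
    have hne : hasse (single i 1) G ≠ 0 := by
      intro h0
      have h1 := coeff_hasse (single i 1) (β - single i 1) G
      have h2 : β - single i 1 + single i 1 = β := by
        apply tsub_add_cancel_of_le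
        rw [Finsupp.single_le_iff]
        omega
      rw [h0, h2, coeff_zero] at h1
      rcases mul_eq_zero.1 h1.symm with h3 | h3
      · exact (MvPolynomial.mem_support_iff.1 hβ) h3
      · rw [Finset.prod_eq_zero_iff] at h3
        obtain ⟨j, -, hj⟩ := h3
        by_cases hij : j = i
        · subst hij
          have : (β - single j 1 : σ →₀ ℕ) j + (single j 1 : σ →₀ ℕ) j = β j :=
            DFunLike.congr_fun h2 j
          rw [this] at hj
          simp only [single_eq_same, Nat.choose_one_right] at hj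
          exact hi ((CharP.cast_eq_zero_iff F p _).1 hj)
        · simp [Finsupp.single_eq_of_ne hij] at hj
    refine ⟨hasse (single i 1) G, hne, ?_, ?_⟩
    · simpa using totalDegree_hasse (single i 1) G hne
    · intro P n hO
      simpa using hO.hasse (single i 1)
  · push Not at hex
    obtain ⟨K, hK⟩ := exists_root (p := p) 1 G (by simpa using hex)
    have h1 := totalDegree_pow_char (p := p) 1 K
    rw [← hK] at h1
    have h2 : G.totalDegree ≤ p ^ 1 * K.totalDegree := by
      rw [hK]
      exact totalDegree_pow _ _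
    rw [pow_one] at h1 h2 hK
    have hK0 : K.totalDegree ≠ 0 := by
      intro h
      rw [h] at h2
      omega
    have hp2 := hp.two_le
    have hlt : K.totalDegree < G.totalDegree := by nlinarith [Nat.pos_of_ne_zero hK0]
    obtain ⟨h, hh0, hh1, hh2⟩ := ih _ hlt K hK0 rfl
    have hKne : K ≠ 0 := by
      rintro rfl
      simp at hK0
    obtain ⟨r, hr⟩ : ∃ r, p = r + 1 := ⟨p - 1, by omega⟩
    refine ⟨K ^ r * h, mul_ne_zero (pow_ne_zero _ hKne) hh0, ?_, ?_⟩
    · have h3 := totalDegree_mul (K ^ r) h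
      have h4 := totalDegree_pow K r
      rw [hr] at h1
      nlinarith
    · intro P n hO
      have h5 : Ord P (n / p + 1) K := by
        apply Ord.of_pow_char (p := p) 1 (n := n + 1)
        · rwa [pow_one, ← hK]
        · intro k hk
          rw [pow_one]
          have : p * k ≤ p * (n / p) := Nat.mul_le_mul_left _ (by omega)
          have := Nat.mul_div_le n p
          omega
      refine ((h5.pow r).mul (hh2 P _ h5)).mono ?_
      have h6 := Nat.div_add_mod n p
      have h7 := Nat.mod_lt n hp.pos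
      generalize n / p = u at *
      generalize n % p = v at *
      subst hr
      nlinarith

theorem exists_iter_deriv [Fintype σ] [PerfectRing F p] {ι : Type*} (P : ι → σ → F) (v : ι → ℕ)
    (i0 : ι) (hv : 1 ≤ v i0) (j : ℕ) (G : MvPolynomial σ F) (hG : G ≠ 0)
    (hO : ∀ i, Ord (P i) (v i + j) G) :
    ∃ h : MvPolynomial σ F, h ≠ 0 ∧ h.totalDegree + j ≤ G.totalDegree ∧
      ∀ i, Ord (P i) (v i) h := by
  induction j generalizing G with
  | zero => exact ⟨G, hG, le_rfl, hO⟩
  | succ j ih =>
    have h0 : G.totalDegree ≠ 0 := by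
      intro h
      rw [totalDegree_eq_zero_iff_eq_C] at h
      have h1 : Ord (P i0) 1 G := (hO i0).mono (by omega)
      rw [ord_one_iff, h, eval_C] at h1
      rw [h1] at h
      exact hG (by simpa using h)
    obtain ⟨K, hK0, hK1, hK2⟩ := exists_deriv (p := p) G h0
    obtain ⟨h, hh0, hh1, hh2⟩ := ih K hK0 (fun i => hK2 _ _ (hO i))
    exact ⟨h, hh0, by omega, hh2⟩

/-- A Hasse derivative of `f` of order less than `N * q` is a nonzero `q`-th power. -/
theorem exists_hasse_eq_pow [Fintype σ] [PerfectRing F p] (e : ℕ) (f : MvPolynomial σ F)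
    (hf : f ≠ 0) : ∃ (a : σ →₀ ℕ) (G : MvPolynomial σ F), (∀ i, a i < p ^ e) ∧ G ≠ 0 ∧
      hasse a f = G ^ p ^ e := by
  classical
  have hp : p.Prime := Fact.out
  have hq : 0 < p ^ e := pow_pos hp.pos e
  obtain ⟨c, hc, hmax⟩ := Finset.exists_max_image f.support
    (fun c : σ →₀ ℕ => ∑ i, c i % p ^ e) (support_nonempty.2 hf)
  set a : σ →₀ ℕ := c.mapRange (· % p ^ e) (Nat.zero_mod _) with ha
  have ha' : ∀ i, a i = c i % p ^ e := fun i => by rw [ha, mapRange_apply]
  have halt : ∀ i, a i < p ^ e := fun i => by rw [ha']; exact Nat.mod_lt _ hq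
  have hne : hasse a f ≠ 0 := by
    intro h0
    have h1 := coeff_hasse a (c - a) f
    have h2 : c - a + a = c := by
      apply tsub_add_cancel_of_le
      intro i
      rw [ha']
      exact Nat.mod_le _ _
    rw [h0, h2, coeff_zero] at h1
    rcases mul_eq_zero.1 h1.symm with h3 | h3
    · exact (MvPolynomial.mem_support_iff.1 hc) h3
    · rw [Finset.prod_eq_zero_iff] at h3
      obtain ⟨j, -, hj⟩ := h3
      have : (c - a : σ →₀ ℕ) j + a j = c j := DFunLike.congr_fun h2 j
      rw [this, choose_mod (p := p) e _ _ (halt j), ← ha'] at hj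
      simp at hj
  have hdiv : ∀ β ∈ (hasse a f).support, ∀ i, p ^ e ∣ β i := by
    intro β hβ
    rw [MvPolynomial.mem_support_iff, coeff_hasse] at hβ
    have h1 : β + a ∈ f.support := MvPolynomial.mem_support_iff.2 (left_ne_zero_of_mul hβ)
    have h2 := right_ne_zero_of_mul hβ
    rw [Finset.prod_ne_zero_iff] at h2
    have h3 : ∀ i, a i ≤ (β i + a i) % p ^ e := by
      intro i
      by_contra hcon
      apply h2 i (Finset.mem_univ i)
      rw [choose_mod (p := p) e _ _ (halt i), Nat.choose_eq_zero_of_lt (by omega)]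
      simp
    have h4 : ∑ i, (β i + a i) % p ^ e ≤ ∑ i, a i := by
      have := hmax _ h1
      simpa [ha'] using this
    have h5 := (Finset.sum_eq_sum_iff_of_le (s := Finset.univ) (fun i _ => h3 i)).1
      (le_antisymm (Finset.sum_le_sum fun i _ => h3 i) h4)
    intro i
    have h6 := h5 i (Finset.mem_univ i)
    have h7 := Nat.div_add_mod (β i + a i) (p ^ e)
    exact ⟨(β i + a i) / p ^ e, by omega⟩
  obtain ⟨G, hG⟩ := exists_root e _ hdiv
  refine ⟨a, G, halt, ?_, hG⟩
  rintro rfl
  rw [zero_pow hq.ne'] at hG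
  exact hne hG

/-- The key inequality over a perfect field of prime characteristic. -/
theorem core_charP [Fintype σ] [PerfectRing F p] {M : ℕ} (hM : Fintype.card σ = M + 1)
    {ι : Type*} (P : ι → σ → F) (w v : ι → ℕ) (a b d : ℕ) (hb : 0 < b)
    (g : MvPolynomial σ F) (hg : g ≠ 0) (hdeg : g.totalDegree ≤ d)
    (hord : ∀ i, Ord (P i) (w i) g) (hv : ∀ i, b * (v i + M) ≤ a * w i)
    (i0 : ι) (hi0 : 1 ≤ v i0) :
    ∃ h : MvPolynomial σ F, h ≠ 0 ∧ (∀ i, Ord (P i) (v i) h) ∧
      b * (h.totalDegree + M) ≤ a * d := by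
  have hp : p.Prime := Fact.out
  obtain ⟨e, he⟩ : ∃ e, b * d < p ^ e := ⟨b * d, Nat.lt_pow_self hp.one_lt⟩
  have hq : 0 < p ^ e := pow_pos hp.pos e
  set t := a * p ^ e / b + 1 with ht
  have ht1 : a * p ^ e ≤ b * t := by
    have := Nat.div_add_mod (a * p ^ e) b
    have := Nat.mod_lt (a * p ^ e) hb
    rw [ht]
    nlinarith
  have ht2 : b * t ≤ a * p ^ e + b := by
    have := Nat.mul_div_le (a * p ^ e) b
    rw [ht]
    nlinarith
  obtain ⟨α, G, hα, hG0, hG⟩ := exists_hasse_eq_pow (p := p) e (g ^ t) (pow_ne_zero _ hg)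
  have hα2 : degree α + (M + 1) ≤ p ^ e * (M + 1) := by
    rw [degree_eq_sum, ← hM]
    have : ∑ i, (α i + 1) ≤ ∑ _i : σ, p ^ e := Finset.sum_le_sum fun i _ => hα i
    simpa [Finset.sum_add_distrib, mul_comm] using this
  obtain ⟨s, hs1, hs2⟩ : ∃ s, p ^ e * s ≤ degree α ∧ degree α < p ^ e * (s + 1) := by
    refine ⟨degree α / p ^ e, Nat.mul_div_le _ _, ?_⟩
    have := Nat.div_add_mod (degree α) (p ^ e)
    have := Nat.mod_lt (degree α) hq
    nlinarith
  have hsM : s ≤ M := by
    have : p ^ e * s < p ^ e * (M + 1) := by omega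
    have := Nat.lt_of_mul_lt_mul_left this
    omega
  obtain ⟨j, hj⟩ : ∃ j, M = s + j := ⟨M - s, by omega⟩
  have hGO : ∀ i, Ord (P i) (v i + j) G := by
    intro i
    have h1 := ((hord i).pow t).hasse α
    rw [hG] at h1
    apply h1.of_pow_char e
    intro k hk
    have h2 : p ^ e * (v i + M) ≤ w i * t := by
      apply Nat.le_of_mul_le_mul_left _ hb
      calc b * (p ^ e * (v i + M)) = p ^ e * (b * (v i + M)) := by ring
        _ ≤ p ^ e * (a * w i) := Nat.mul_le_mul_left _ (hv i)
        _ = w i * (a * p ^ e) := by ring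
        _ ≤ w i * (b * t) := Nat.mul_le_mul_left _ ht1
        _ = b * (w i * t) := by ring
    have h3 : p ^ e * (k + (s + 1)) ≤ p ^ e * (v i + M) := Nat.mul_le_mul_left _ (by omega)
    rw [mul_add] at h3
    omega
  have hGd : b * (G.totalDegree + s) ≤ a * d := by
    have h1 := totalDegree_hasse α (g ^ t) (by rw [hG]; exact pow_ne_zero _ hG0)
    rw [hG] at h1
    have h2 := totalDegree_pow_char (p := p) e G
    have h3 := totalDegree_pow g t
    have h4 : t * g.totalDegree ≤ t * d := Nat.mul_le_mul_left _ hdeg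
    have h5 : p ^ e * (G.totalDegree + s) ≤ t * d := by
      rw [mul_add]
      omega
    have h6 : p ^ e * (b * (G.totalDegree + s)) < p ^ e * (a * d + 1) := by
      calc p ^ e * (b * (G.totalDegree + s)) = b * (p ^ e * (G.totalDegree + s)) := by ring
        _ ≤ b * (t * d) := Nat.mul_le_mul_left _ h5
        _ = (b * t) * d := by ring
        _ ≤ (a * p ^ e + b) * d := Nat.mul_le_mul_right _ ht2
        _ = p ^ e * (a * d) + b * d := by ring
        _ < p ^ e * (a * d) + p ^ e := by omega
        _ = p ^ e * (a * d + 1) := by ring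
    have := Nat.lt_of_mul_lt_mul_left h6
    omega
  obtain ⟨h, hh0, hh1, hh2⟩ := exists_iter_deriv (p := p) P v i0 hi0 j G hG0 hGO
  refine ⟨h, hh0, hh2, le_trans (Nat.mul_le_mul_left _ (by omega)) hGd⟩

end Pool.Agent.MP_ef83ea_ag
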