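import Mathlib

/-!
Order of vanishing of a multivariate polynomial at a point, and Hasse derivatives.
-/

set_option autoImplicit false

namespace Pool.Agent.MP_ef83ea_ag

open MvPolynomial Finsupp

variable {σ : Type*} {R : Type*} [CommRing R]

/-- translation: `shift P f = f (y + P)` -/
noncomputable def shift (P : σ → R) : MvPolynomial σ R →ₐ[R] MvPolynomial σ R :=
  aeval (fun i => X i + C (P i))

/-- `f` vanishes to order at least `n` at the point `P` -/
def Ord (P : σ → R) (n : ℕ) (f : MvPolynomial σ R) : Prop :=
  shift P f ∈ idealOfVars σ R ^ n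

theorem ord_iff {P : σ → R} {n : ℕ} {f : MvPolynomial σ R} :
    Ord P n f ↔ ∀ x : σ →₀ ℕ, degree x < n → coeff x (shift P f) = 0 :=
  mem_pow_idealOfVars_iff' n _

theorem Ord.mul {P : σ → R} {a b : ℕ} {f g : MvPolynomial σ R} (hf : Ord P a f)
    (hg : Ord P b g) : Ord P (a + b) (f * g) := by
  unfold Ord at *
  rw [map_mul, pow_add]
  exact Ideal.mul_mem_mul hf hg

theorem Ord.pow {P : σ → R} {a : ℕ} {f : MvPolynomial σ R} (hf : Ord P a f) (t : ℕ) :
    Ord P (a * t) (f ^ t) := by
  unfold Ord at *
  rw [map_pow, pow_mul]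
  exact Ideal.pow_mem_pow hf t

theorem Ord.mono {P : σ → R} {a b : ℕ} {f : MvPolynomial σ R} (hf : Ord P a f) (h : b ≤ a) :
    Ord P b f :=
  Ideal.pow_le_pow_right h hf

theorem map_shift {S : Type*} [CommRing S] (φ : R →+* S) (P : σ → R) (f : MvPolynomial σ R) :
    MvPolynomial.map φ (shift P f) = shift (fun i => φ (P i)) (MvPolynomial.map φ f) := by
  induction f using MvPolynomial.induction_on with
  | C a => simp [shift]
  | add p q hp hq => simp [hp, hq]
  | mul_X p i hp =>
    rw [map_mul, map_mul, hp, map_mul, map_mul]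
    simp [shift]

theorem Ord.map {S : Type*} [CommRing S] (φ : R →+* S) {P : σ → R} {n : ℕ}
    {f : MvPolynomial σ R} (h : Ord P n f) :
    Ord (fun i => φ (P i)) n (MvPolynomial.map φ f) := by
  rw [ord_iff] at *
  intro x hx
  rw [← map_shift, coeff_map, h x hx, map_zero]

theorem Ord.of_map {S : Type*} [CommRing S] (φ : R →+* S) (hφ : Function.Injective φ)
    {P : σ → R} {n : ℕ} {f : MvPolynomial σ R}
    (h : Ord (fun i => φ (P i)) n (MvPolynomial.map φ f)) : Ord P n f := by
  rw [ord_iff] at *
  intro x hx
  apply hφ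
  rw [map_zero, ← h x hx, ← map_shift, coeff_map]

theorem eval_shift (P y : σ → R) (f : MvPolynomial σ R) :
    eval y (shift P f) = eval (fun i => y i + P i) f := by
  induction f using MvPolynomial.induction_on with
  | C a => simp [shift]
  | add p q hp hq => simp [hp, hq]
  | mul_X p i hp =>
    rw [map_mul, map_mul, hp, map_mul]
    simp [shift]

theorem ord_one_iff {P : σ → R} {f : MvPolynomial σ R} : Ord P 1 f ↔ eval P f = 0 := by
  have h : coeff 0 (shift P f) = eval P f := by
    have := eval_shift P 0 f
    simp only [Pi.zero_apply, zero_add] at this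
    rw [← this, ← constantCoeff_eq]
    exact (congrArg (fun φ => φ (shift P f)) (eval_zero (σ := σ) (R := R))).symm
  rw [ord_iff]
  constructor
  · intro H
    rw [← h]
    exact H 0 (by simp)
  · intro H x hx
    have : x = 0 := by
      rw [← degree_eq_zero_iff]
      omega
    rw [this, h, H]

/-- Taylor expansion `f (y + z)` as a polynomial in `z` -/
noncomputable def tay : MvPolynomial σ R →ₐ[R] MvPolynomial σ (MvPolynomial σ R) :=
  aeval (fun i => X i + C (X i))

/-- Hasse derivative -/
noncomputable def hasse (a : σ →₀ ℕ) (f : MvPolynomial σ R) : MvPolynomial σ R :=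
  coeff a (tay f)

theorem shift_hasse (P : σ → R) (a : σ →₀ ℕ) (f : MvPolynomial σ R) :
    shift P (hasse a f) = hasse a (shift P f) := by
  have key : MvPolynomial.map (shift P : MvPolynomial σ R →+* MvPolynomial σ R) (tay f)
      = tay (shift P f) := by
    induction f using MvPolynomial.induction_on with
    | C a => simp [shift, tay]
    | add p q hp hq => simp [hp, hq]
    | mul_X p i hp =>
      have e : MvPolynomial.map (shift P : MvPolynomial σ R →+* MvPolynomial σ R) (tay (X i))
          = tay (shift P (X i)) := by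
        simp [shift, tay, add_assoc]
      rw [map_mul, map_mul, hp, e, map_mul, map_mul]
  unfold hasse
  rw [← key, coeff_map]
  rfl

theorem hasse_monomial [Fintype σ] (a c : σ →₀ ℕ) (r : R) :
    hasse a (monomial c r) = monomial (c - a) (r * ∏ i, ((c i).choose (a i) : R)) := by
  classical
  unfold hasse
  have h1 : tay (monomial c r) = C (C r) * ∏ i, (X i + C (X i)) ^ (c i) := by
    rw [tay, aeval_monomial, Finsupp.prod_fintype _ _ (by simp)]
    rfl
  have h2 : ∀ i, ((X i + C (X i)) ^ (c i) : MvPolynomial σ (MvPolynomial σ R))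
      = ∑ m ∈ Finset.range (c i + 1),
        X i ^ m * C (X i ^ (c i - m) * ((c i).choose m : MvPolynomial σ R)) := by
    intro i
    rw [add_pow]
    refine Finset.sum_congr rfl fun m _ => ?_
    simp [mul_assoc]
  have h3 : ∀ j : σ → ℕ,
      (∏ i, (X i ^ (j i) * C (X i ^ (c i - j i) * ((c i).choose (j i) : MvPolynomial σ R)))
        : MvPolynomial σ (MvPolynomial σ R))
      = monomial (Finsupp.equivFunOnFinite.symm j)
          (∏ i, (X i ^ (c i - j i) * ((c i).choose (j i) : MvPolynomial σ R))) := by
    intro j
    rw [Finset.prod_mul_distrib, monomial_eq, Finsupp.prod_fintype _ _ (by simp), mul_comm,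
      map_prod]
    simp
  rw [h1, coeff_C_mul]
  simp_rw [h2]
  rw [Finset.prod_univ_sum]
  simp_rw [h3]
  rw [coeff_sum]
  simp_rw [coeff_monomial]
  have h4 : ∀ j : σ → ℕ, (Finsupp.equivFunOnFinite.symm j = a) ↔ j = a := by
    intro j
    constructor
    · intro h
      rw [← h]
      rfl
    · intro h
      rw [h]
      simp
  simp_rw [h4]
  rw [Finset.sum_ite_eq']
  split_ifs with h
  · rw [Finset.prod_mul_distrib, monomial_eq, Finsupp.prod_fintype _ _ (by simp), map_mul,
      map_prod]
    simp only [map_natCast, Finsupp.coe_tsub, Pi.sub_apply]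
    ring
  · rw [Fintype.mem_piFinset] at h
    push Not at h
    obtain ⟨i, hi⟩ := h
    have : (c i).choose (a i) = 0 := by
      apply Nat.choose_eq_zero_of_lt
      simpa using hi
    rw [Finset.prod_eq_zero (Finset.mem_univ i) (by rw [this]; simp)]
    simp

theorem coeff_hasse [Fintype σ] (a β : σ →₀ ℕ) (f : MvPolynomial σ R) :
    coeff β (hasse a f) = coeff (β + a) f * ∏ i, ((β i + a i).choose (a i) : R) := by
  classical
  induction f using MvPolynomial.induction_on' with
  | monomial c r =>
    rw [hasse_monomial, coeff_monomial, coeff_monomial]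
    by_cases h : c = β + a
    · subst h
      simp
    · rw [if_neg h, zero_mul]
      split_ifs with h2
      · have : ∃ i, c i < a i := by
          by_contra hcon
          push Not at hcon
          apply h
          rw [← h2]
          ext i
          have := hcon i
          simp only [Finsupp.coe_add, Finsupp.coe_tsub, Pi.add_apply, Pi.sub_apply]
          omega
        obtain ⟨i, hi⟩ := this
        rw [Finset.prod_eq_zero (Finset.mem_univ i)
          (by rw [Nat.choose_eq_zero_of_lt hi]; simp)]
        simp
      · rfl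
  | add p q hp hq =>
    have : hasse a (p + q) = hasse a p + hasse a q := by simp [hasse]
    rw [this, coeff_add, hp, hq, coeff_add, add_mul]

theorem Ord.hasse [Fintype σ] {P : σ → R} {n : ℕ} {f : MvPolynomial σ R} (a : σ →₀ ℕ)
    (h : Ord P n f) : Ord P (n - degree a) (hasse a f) := by
  rw [ord_iff] at *
  intro x hx
  rw [shift_hasse, coeff_hasse, h _ (by rw [map_add]; omega), zero_mul]

theorem degree_le_totalDegree {f : MvPolynomial σ R} {s : σ →₀ ℕ} (h : s ∈ f.support) :
    degree s ≤ f.totalDegree :=
  le_totalDegree h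

theorem exists_degree_eq_totalDegree {f : MvPolynomial σ R} (h : f ≠ 0) :
    ∃ s ∈ f.support, degree s = f.totalDegree := by
  obtain ⟨s, hs, h2⟩ := Finset.exists_mem_eq_sup f.support (support_nonempty.2 h)
    (fun s : σ →₀ ℕ => s.sum fun _ e => e)
  exact ⟨s, hs, h2.symm⟩

theorem totalDegree_hasse [Fintype σ] (a : σ →₀ ℕ) (f : MvPolynomial σ R)
    (h : hasse a f ≠ 0) : (hasse a f).totalDegree + degree a ≤ f.totalDegree := by
  obtain ⟨s, hs, h2⟩ := exists_degree_eq_totalDegree h
  rw [← h2, ← map_add]
  apply degree_le_totalDegree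
  rw [MvPolynomial.mem_support_iff] at hs ⊢
  rw [coeff_hasse] at hs
  exact left_ne_zero_of_mul hs

end Pool.Agent.MP_ef83ea_ag
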