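import Pool.Agent.MP_ef83ea_ag.Proj

/-!
Points of projective space, symbolic powers and initial degrees in Mathlib terms.
-/

namespace Pool.Agent.MP_ef83ea_ag

open MvPolynomial Filter Topology

universe u

variable {K : Type u} [Field K] {N : ℕ}

/-- The homogeneous prime ideal of a point of projective N-space: all polynomials vanishing on
the line through the origin that the point represents. -/
noncomputable def pointIdeal (p : Projectivization K (Fin (N + 1) → K)) :
    Ideal (MvPolynomial (Fin (N + 1)) K) :=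
  vanishingIdeal K (p.submodule : Set (Fin (N + 1) → K))

/-- The m-th symbolic power of the ideal of a finite set of points. -/
noncomputable def symbPow (S : Finset (Projectivization K (Fin (N + 1) → K))) (m : ℕ) :
    Ideal (MvPolynomial (Fin (N + 1)) K) :=
  ⨅ p ∈ S, pointIdeal p ^ m

/-- The initial degree: least degree of a nonzero homogeneous element. -/
noncomputable def initDeg (J : Ideal (MvPolynomial (Fin (N + 1)) K)) : ℕ :=
  sInf {d : ℕ | ∃ f ∈ J, f ≠ 0 ∧ f.IsHomogeneous d}

theorem pointIdeal_eq [Infinite K] (p : Projectivization K (Fin (N + 1) → K)) :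
    pointIdeal p = ptIdeal p.rep := by
  obtain ⟨k, hk⟩ : ∃ k, p.rep k ≠ 0 := by
    by_contra h
    push Not at h
    exact p.rep_nonzero (funext h)
  apply le_antisymm
  · intro f hf
    rw [pointIdeal, mem_vanishingIdeal_iff] at hf
    let φ : Fin (N + 1) → MvPolynomial (Fin (N + 1)) K := fun i => C (p.rep i / p.rep k) * X k
    have h1 : aeval φ f = 0 := by
      apply MvPolynomial.funext
      intro z
      have h2 := hf ((z k / p.rep k) • p.rep) (by
        rw [p.submodule_eq]
        exact Submodule.smul_mem _ _ (Submodule.mem_span_singleton_self _))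
      have h3 : (aeval z : MvPolynomial (Fin (N + 1)) K →ₐ[K] K).comp (aeval φ) =
          aeval ((z k / p.rep k) • p.rep) := by
        apply MvPolynomial.algHom_ext
        intro i
        simp [φ]
        field_simp
      have h4 := AlgHom.congr_fun h3 f
      rw [AlgHom.comp_apply, h2] at h4
      simpa [coe_aeval_eq_eval] using h4
    have h5 : (Ideal.Quotient.mkₐ K (ptIdeal p.rep)).comp (aeval φ) =
        Ideal.Quotient.mkₐ K (ptIdeal p.rep) := by
      apply MvPolynomial.algHom_ext
      intro i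
      simp only [AlgHom.comp_apply, aeval_X, Ideal.Quotient.mkₐ_eq_mk]
      rw [Ideal.Quotient.eq]
      have h6 : (X k * C (p.rep i) - X i * C (p.rep k) : MvPolynomial (Fin (N + 1)) K) ∈
          ptIdeal p.rep := Ideal.subset_span ⟨(k, i), rfl⟩
      have h7 := Ideal.mul_mem_left _ (C (p.rep k)⁻¹) h6
      have h8 : (C (p.rep k)⁻¹ * C (p.rep k) : MvPolynomial (Fin (N + 1)) K) = 1 := by
        rw [← map_mul, inv_mul_cancel₀ hk, map_one]
      convert h7 using 1
      simp only [φ, div_eq_mul_inv, map_mul]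
      linear_combination (X i : MvPolynomial (Fin (N + 1)) K) * h8
    have h9 := AlgHom.congr_fun h5 f
    rw [AlgHom.comp_apply, h1, map_zero, Ideal.Quotient.mkₐ_eq_mk] at h9
    exact Ideal.Quotient.eq_zero_iff_mem.mp h9.symm
  · rw [ptIdeal, Ideal.span_le]
    rintro _ ⟨ij, rfl⟩
    rw [SetLike.mem_coe, pointIdeal, mem_vanishingIdeal_iff]
    intro x hx
    rw [p.submodule_eq, SetLike.mem_coe, Submodule.mem_span_singleton] at hx
    obtain ⟨a, rfl⟩ := hx
    simp
    ring

attribute [local instance] MvPolynomial.gradedAlgebra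

theorem ptIdeal_pow_homog (p : Fin (N + 1) → K) (m : ℕ) :
    (ptIdeal p ^ m).IsHomogeneous (homogeneousSubmodule (Fin (N + 1)) K) := by
  induction m with
  | zero => rw [pow_zero, Ideal.one_eq_top]; exact Ideal.IsHomogeneous.top _
  | succ m ih =>
    rw [pow_succ]
    refine ih.mul (Ideal.homogeneous_span _ _ ?_)
    rintro _ ⟨ij, rfl⟩
    exact ⟨1, ((isHomogeneous_X K _).mul (isHomogeneous_C _ _)).sub
      ((isHomogeneous_X K _).mul (isHomogeneous_C _ _))⟩

theorem initDeg_le [Infinite K] (S : Finset (Projectivization K (Fin (N + 1) → K))) (m : ℕ)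
    (f : MvPolynomial (Fin (N + 1)) K) (hf : f ≠ 0) (h : ∀ p ∈ S, f ∈ ptIdeal p.rep ^ m) :
    ∃ g ∈ symbPow S m, g ≠ 0 ∧ g.IsHomogeneous f.totalDegree := by
  refine ⟨homogeneousComponent f.totalDegree f, ?_, ?_, homogeneousComponent_isHomogeneous _ _⟩
  · simp only [symbPow, Submodule.mem_iInf, pointIdeal_eq]
    intro p hp
    exact homogeneousComponent_mem_of_mem (ptIdeal_pow_homog _ _) (h p hp) _
  · obtain ⟨d, hd, hd2⟩ := Finset.exists_mem_eq_sup f.support (support_nonempty.mpr hf)
      (fun s => s.sum fun _ e => e)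
    intro h0
    have h1 := congrArg (coeff d) h0
    rw [coeff_homogeneousComponent, if_pos, coeff_zero] at h1
    · exact (mem_support_iff.mp hd) h1
    · rw [totalDegree, hd2]; rfl

theorem exists_init [Infinite K] {M : ℕ} (S : Finset (Projectivization K (Fin (M + 1 + 1) → K)))
    (m : ℕ) : ∃ g ∈ symbPow S m, g ≠ 0 ∧ g.IsHomogeneous (initDeg (symbPow S m)) := by
  obtain ⟨F, hF0, hF⟩ := exists_mem_pow (fun i : S => i.1.rep) (fun i => i.1.rep_nonzero)
    (fun _ => m)
  obtain ⟨g, hg⟩ := initDeg_le S m F hF0 fun p hp => hF ⟨p, hp⟩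
  exact Nat.sInf_mem (s := {d : ℕ | ∃ f ∈ symbPow S m, f ≠ 0 ∧ f.IsHomogeneous d}) ⟨_, g, hg⟩

theorem own_main [Infinite K] {M : ℕ} (S : Finset (Projectivization K (Fin (M + 1 + 1) → K)))
    (hS : S.Nonempty) (r : ℕ) (hr : 1 ≤ r) :
    ∃ w : ℝ, Tendsto (fun m : ℕ => (initDeg (symbPow S m) : ℝ) / m) atTop (𝓝 w) ∧
      ((initDeg (symbPow S r) : ℝ) + M) / (r + M) ≤ w := by
  have hsub : Subadditive fun m : ℕ => (initDeg (symbPow S m) : ℝ) := by
    intro m n
    obtain ⟨f, hf, hf0, hf1⟩ := exists_init S m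
    obtain ⟨g, hg, hg0, hg1⟩ := exists_init S n
    have : initDeg (symbPow S (m + n)) ≤ initDeg (symbPow S m) + initDeg (symbPow S n) := by
      refine Nat.sInf_le ⟨f * g, ?_, mul_ne_zero hf0 hg0, hf1.mul hg1⟩
      simp only [symbPow, Submodule.mem_iInf] at hf hg ⊢
      intro p hp
      rw [pow_add]
      exact Ideal.mul_mem_mul (hf p hp) (hg p hp)
    change (initDeg (symbPow S (m + n)) : ℝ) ≤ initDeg (symbPow S m) + initDeg (symbPow S n)
    exact_mod_cast this
  have hb : BddBelow (Set.range fun n : ℕ => (initDeg (symbPow S n) : ℝ) / n) :=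
    ⟨0, by rintro _ ⟨n, rfl⟩; positivity⟩
  refine ⟨_, hsub.tendsto_lim hb, ge_of_tendsto (hsub.tendsto_lim hb) ?_⟩
  filter_upwards [eventually_ge_atTop 1] with m hm
  obtain ⟨p0, hp0⟩ := hS
  obtain ⟨f, hf, hf0, hf1⟩ := exists_init S m
  simp only [symbPow, Submodule.mem_iInf, pointIdeal_eq] at hf
  obtain ⟨F, hF0, hF1, hF2⟩ := demailly (⟨p0, hp0⟩ : S) (fun i : S => i.1.rep)
    (fun i => i.1.rep_nonzero) (fun _ => 1) (fun _ => le_rfl) r m hr hm f hf0
    (fun i => by rw [mul_one]; exact hf i.1 i.2)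
  obtain ⟨g, hg⟩ := initDeg_le S r F hF0 fun p hp => by simpa using hF1 ⟨p, hp⟩
  have hle : initDeg (symbPow S r) ≤ F.totalDegree := Nat.sInf_le ⟨g, hg⟩
  rw [hf1.totalDegree hf0] at hF2
  have h1 : m * (initDeg (symbPow S r) + M) ≤ (r + M) * initDeg (symbPow S m) :=
    le_trans (Nat.mul_le_mul_left _ (by omega)) hF2
  have h2 : (m : ℝ) * (initDeg (symbPow S r) + M) ≤ (r + M) * initDeg (symbPow S m) := by
    exact_mod_cast h1
  have hm' : (0 : ℝ) < m := by exact_mod_cast hm
  have hr' : (0 : ℝ) < r := by exact_mod_cast hr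
  rw [div_le_div_iff₀ (by positivity) hm']
  linarith

end Pool.Agent.MP_ef83ea_ag
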