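import Pool.Agent.MP_ef83ea_ag.Transfer

/-!
From affine space to projective space.
-/

set_option autoImplicit false

namespace Pool.Agent.MP_ef83ea_ag

open MvPolynomial Finsupp

universe u

theorem totalDegree_aeval_le {σ τ R : Type*} [CommRing R] (φ : σ → MvPolynomial τ R)
    (hφ : ∀ i, (φ i).totalDegree ≤ 1) (f : MvPolynomial σ R) :
    (aeval φ f).totalDegree ≤ f.totalDegree := by
  conv_lhs => rw [f.as_sum]
  rw [map_sum]
  apply totalDegree_finsetSum_le
  intro s hs
  rw [aeval_monomial]
  refine (totalDegree_mul _ _).trans ?_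
  have h1 : ((algebraMap R (MvPolynomial τ R)) (coeff s f)).totalDegree = 0 := totalDegree_C _
  rw [h1, zero_add]
  refine (totalDegree_finsetProd _ _).trans (le_trans ?_ (degree_le_totalDegree hs))
  rw [degree_apply]
  refine Finset.sum_le_sum fun i _ => (totalDegree_pow _ _).trans ?_
  simpa using Nat.mul_le_mul_left (s i) (hφ i)

theorem totalDegree_X_le {σ R : Type*} [CommRing R] (i : σ) :
    (X i : MvPolynomial σ R).totalDegree ≤ 1 := by
  have := totalDegree_monomial_le (single i 1) (1 : R)
  simpa [X] using this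

theorem totalDegree_C_mul_le {σ R : Type*} [CommRing R] (c : R) (f : MvPolynomial σ R) :
    (C c * f).totalDegree ≤ f.totalDegree := by
  simpa using totalDegree_mul (C c) f

theorem totalDegree_shift_le {σ R : Type*} [CommRing R] (P : σ → R) (f : MvPolynomial σ R) :
    (shift P f).totalDegree ≤ f.totalDegree := by
  apply totalDegree_aeval_le
  intro i
  refine (totalDegree_add _ _).trans ?_
  simp [totalDegree_X_le]

variable {K : Type u} [Field K] {N : ℕ}

/-- the homogeneous ideal of a point -/
noncomputable def ptIdeal (p : Fin (N + 1) → K) : Ideal (MvPolynomial (Fin (N + 1)) K) :=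
  Ideal.span (Set.range (fun ij : Fin (N + 1) × Fin (N + 1) =>
    (MvPolynomial.X ij.1 * MvPolynomial.C (p ij.2)
      - MvPolynomial.X ij.2 * MvPolynomial.C (p ij.1) : MvPolynomial (Fin (N + 1)) K)))

/-- the linear form `x 0 + sum c j * x (j+1)` -/
noncomputable def linForm (c : Fin N → K) : MvPolynomial (Fin (N + 1)) K :=
  X 0 + ∑ j, C (c j) * X j.succ

theorem eval_linForm (c : Fin N → K) (z : Fin (N + 1) → K) :
    eval z (linForm c) = z 0 + ∑ j, c j * z j.succ := by
  simp [linForm]

theorem linForm_ne_zero (c : Fin N → K) : linForm c ≠ 0 := by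
  intro h
  have := eval_linForm c (Fin.cons 1 0)
  rw [h] at this
  simp at this

theorem totalDegree_linForm (c : Fin N → K) : (linForm c).totalDegree ≤ 1 := by
  refine (totalDegree_add _ _).trans (max_le (totalDegree_X_le _) ?_)
  exact totalDegree_finsetSum_le fun j _ => (totalDegree_C_mul_le _ _).trans (totalDegree_X_le _)

theorem exists_eval_ne_zero [Infinite K] {σ : Type*} {f : MvPolynomial σ K} (hf : f ≠ 0) :
    ∃ z, eval z f ≠ 0 := by
  by_contra h
  push Not at h
  exact hf (MvPolynomial.funext fun z => by simp [h z])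

theorem exists_linForm [Infinite K] {ι : Type*} [Finite ι] (pts : ι → Fin (N + 1) → K)
    (hne : ∀ i, pts i ≠ 0) : ∃ c : Fin N → K, ∀ i, eval (pts i) (linForm c) ≠ 0 := by
  classical
  have := Fintype.ofFinite ι
  let q : ι → MvPolynomial (Fin N) K := fun i => C (pts i 0) + ∑ j, X j * C (pts i j.succ)
  have hq : ∀ i c, eval c (q i) = eval (pts i) (linForm c) := by
    intro i c
    simp [q, eval_linForm]
  have hq0 : ∀ i, q i ≠ 0 := by
    intro i h
    apply hne i
    have h0 : pts i 0 = 0 := by
      have := hq i 0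
      rw [h, eval_linForm] at this
      simpa using this.symm
    ext j
    refine Fin.cases h0 (fun j => ?_) j
    have := hq i (Pi.single j 1)
    rw [h, eval_linForm, h0] at this
    simpa [Pi.single_apply] using this.symm
  obtain ⟨c, hc⟩ := exists_eval_ne_zero (Finset.prod_ne_zero_iff.2
    fun i (_ : i ∈ Finset.univ) => hq0 i)
  refine ⟨c, fun i => ?_⟩
  rw [map_prod, Finset.prod_ne_zero_iff] at hc
  rw [← hq]
  exact hc i (Finset.mem_univ i)

/-- the affine point attached to a projective point -/
noncomputable def affPt (c : Fin N → K) (p : Fin (N + 1) → K) : Fin N → K :=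
  fun j => p j.succ / eval p (linForm c)

theorem exists_dehom [Infinite K] (c : Fin N → K) (f : MvPolynomial (Fin (N + 1)) K)
    (hf : f ≠ 0) : ∃ g : MvPolynomial (Fin N) K, g ≠ 0 ∧ g.totalDegree ≤ f.totalDegree ∧
      ∀ (p : Fin (N + 1) → K) (k : ℕ), eval p (linForm c) ≠ 0 → f ∈ ptIdeal p ^ k →
        Ord (affPt c p) k g := by
  obtain ⟨z, hz⟩ := exists_eval_ne_zero (mul_ne_zero hf (linForm_ne_zero c))
  rw [map_mul] at hz
  have hz1 := left_ne_zero_of_mul hz
  have hz2 := right_ne_zero_of_mul hz
  set l := eval z (linForm c) with hl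
  let φ : Fin (N + 1) → MvPolynomial (Fin N) K :=
    Fin.cons (C l * (1 - ∑ j, C (c j) * X j)) (fun j => C l * X j)
  have hφ : ∀ (p : Fin (N + 1) → K), eval p (linForm c) ≠ 0 → ∀ i,
      eval (affPt c p) (φ i) = l / eval p (linForm c) * p i := by
    intro p hp i
    refine Fin.cases ?_ (fun j => ?_) i
    · have h1 : p 0 = eval p (linForm c) - ∑ j, c j * p j.succ := by
        rw [eval_linForm]
        ring
      have h2 : ∑ j, c j * (p j.succ / eval p (linForm c))
          = (∑ j, c j * p j.succ) / eval p (linForm c) := by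
        rw [Finset.sum_div]
        exact Finset.sum_congr rfl fun j _ => by ring
      simp only [φ, Fin.cons_zero, map_mul, eval_C, map_sub, map_one, map_sum, eval_X, affPt]
      rw [h2, h1]
      field_simp
    · simp only [φ, Fin.cons_succ, map_mul, eval_C, eval_X, affPt]
      ring
  have heval : ∀ (y : Fin N → K) (F : MvPolynomial (Fin (N + 1)) K),
      eval y (aeval φ F) = eval (fun i => eval y (φ i)) F := by
    intro y F
    induction F using MvPolynomial.induction_on with
    | C a => simp
    | add p q hp hq => simp only [map_add, hp, hq]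
    | mul_X p i hp => simp only [map_mul, hp, aeval_X, eval_X]
  refine ⟨aeval φ f, ?_, ?_, ?_⟩
  · intro h0
    apply hz1
    have := heval (affPt c z) f
    rw [h0, map_zero] at this
    rw [this]
    congr 2
    ext i
    rw [hφ z hz2, ← hl, div_self hz2, one_mul]
  · apply totalDegree_aeval_le
    intro i
    refine Fin.cases ?_ (fun j => ?_) i
    · simp only [φ, Fin.cons_zero]
      refine (totalDegree_C_mul_le _ _).trans ((totalDegree_sub _ _).trans (max_le (by simp) ?_))
      exact totalDegree_finsetSum_le fun j _ =>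
        (totalDegree_C_mul_le _ _).trans (totalDegree_X_le _)
    · simp only [φ, Fin.cons_succ]
      exact (totalDegree_C_mul_le _ _).trans (totalDegree_X_le _)
  · intro p k hp hfk
    let Ψ : MvPolynomial (Fin (N + 1)) K →ₐ[K] MvPolynomial (Fin N) K :=
      (shift (affPt c p)).comp (aeval φ)
    have h1 : Ideal.map Ψ (ptIdeal p) ≤ idealOfVars (Fin N) K := by
      rw [ptIdeal, Ideal.map_span, Ideal.span_le]
      rintro _ ⟨_, ⟨⟨i, j⟩, rfl⟩, rfl⟩
      have : Ord (affPt c p) 1 (aeval φ (X i * C (p j) - X j * C (p i))) := by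
        rw [ord_one_iff, heval]
        simp only [map_sub, map_mul, eval_X, eval_C, hφ p hp]
        ring
      unfold Ord at this
      rw [pow_one] at this
      exact this
    have h2 : Ψ f ∈ Ideal.map Ψ (ptIdeal p ^ k) := Ideal.mem_map_of_mem _ hfk
    rw [Ideal.map_pow] at h2
    exact Ideal.pow_right_mono h1 k h2

/-- homogenisation with respect to `linForm c` -/
noncomputable def homog (c : Fin N → K) (e : ℕ) (u : Fin N → MvPolynomial (Fin (N + 1)) K)
    (h : MvPolynomial (Fin N) K) : MvPolynomial (Fin (N + 1)) K :=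
  ∑ β ∈ h.support, C (coeff β h) * ((∏ j, u j ^ β j) * linForm c ^ (e - degree β))

theorem eval_homog (c : Fin N → K) (e : ℕ) (u : Fin N → MvPolynomial (Fin (N + 1)) K)
    (h : MvPolynomial (Fin N) K) (he : h.totalDegree ≤ e) (z : Fin (N + 1) → K)
    (hz : eval z (linForm c) ≠ 0) :
    eval z (homog c e u h) = eval z (linForm c) ^ e
      * eval (fun j => eval z (u j) / eval z (linForm c)) h := by
  rw [homog, map_sum, eval_eq' _ h, Finset.mul_sum]
  refine Finset.sum_congr rfl fun β hβ => ?_
  have h1 : degree β ≤ e := (degree_le_totalDegree hβ).trans he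
  obtain ⟨k, hk⟩ : ∃ k, e = degree β + k := ⟨e - degree β, by omega⟩
  have h2 : e - degree β = k := by omega
  rw [h2, hk]
  simp only [map_mul, eval_C, map_prod, map_pow, div_pow, Finset.prod_div_distrib]
  rw [Finset.prod_pow_eq_pow_sum, ← degree_eq_sum, pow_add]
  field_simp

theorem exists_hom [Infinite K] (c : Fin N → K) (h : MvPolynomial (Fin N) K) (hh : h ≠ 0) :
    ∃ F : MvPolynomial (Fin (N + 1)) K, F ≠ 0 ∧ F.totalDegree ≤ h.totalDegree ∧
      ∀ (p : Fin (N + 1) → K) (k : ℕ), eval p (linForm c) ≠ 0 → Ord (affPt c p) k h →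
        F ∈ ptIdeal p ^ k := by
  classical
  refine ⟨homog c h.totalDegree (fun j => X j.succ) h, ?_, ?_, ?_⟩
  · obtain ⟨y, hy⟩ := exists_eval_ne_zero hh
    intro h0
    have h1 : eval (Fin.cons (1 - ∑ j, c j * y j) y : Fin (N + 1) → K) (linForm c) = 1 := by
      rw [eval_linForm]
      simp
    have := eval_homog c h.totalDegree (fun j => X j.succ) h le_rfl
      (Fin.cons (1 - ∑ j, c j * y j) y) (by rw [h1]; exact one_ne_zero)
    rw [h0, h1] at this
    apply hy
    simpa using this.symm
  · apply totalDegree_finsetSum_le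
    intro β hβ
    have h1 : degree β ≤ h.totalDegree := degree_le_totalDegree hβ
    refine (totalDegree_C_mul_le _ _).trans ((totalDegree_mul _ _).trans ?_)
    have h2 : (∏ j, (X j.succ : MvPolynomial (Fin (N + 1)) K) ^ β j).totalDegree ≤ degree β := by
      refine (totalDegree_finsetProd _ _).trans ?_
      rw [degree_eq_sum]
      refine Finset.sum_le_sum fun i _ => (totalDegree_pow _ _).trans ?_
      simp
    have h3 : (linForm c ^ (h.totalDegree - degree β)).totalDegree
        ≤ h.totalDegree - degree β := by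
      refine (totalDegree_pow _ _).trans ?_
      simpa using Nat.mul_le_mul_left _ (totalDegree_linForm c)
    exact (add_le_add h2 h3).trans (by omega)
  · intro p k hp hO
    let u : Fin N → MvPolynomial (Fin (N + 1)) K :=
      fun j => X j.succ - C (affPt c p j) * linForm c
    have hu : ∀ j, u j ∈ ptIdeal p := by
      intro j
      have hgen : ∀ a b : Fin (N + 1),
          (X a * C (p b) - X b * C (p a) : MvPolynomial (Fin (N + 1)) K) ∈ ptIdeal p :=
        fun a b => Ideal.subset_span ⟨(a, b), rfl⟩
      have h1 : u j = C (eval p (linForm c))⁻¹ * ((X j.succ * C (p 0) - X 0 * C (p j.succ))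
          + ∑ i, C (c i) * (X j.succ * C (p i.succ) - X i.succ * C (p j.succ))) := by
        have h2 : (X j.succ * C (p 0) - X 0 * C (p j.succ))
            + ∑ i, C (c i) * (X j.succ * C (p i.succ) - X i.succ * C (p j.succ))
            = (X j.succ * C (eval p (linForm c)) - linForm c * C (p j.succ)
              : MvPolynomial (Fin (N + 1)) K) := by
          rw [eval_linForm]
          simp only [linForm, map_add, map_sum, map_mul, mul_add, add_mul, Finset.mul_sum,
            Finset.sum_mul, mul_sub, Finset.sum_sub_distrib]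
          have e1 : ∀ i, (C (c i) * (X j.succ * C (p i.succ)) : MvPolynomial (Fin (N + 1)) K)
              = X j.succ * (C (c i) * C (p i.succ)) := fun i => by ring
          have e2 : ∀ i, (C (c i) * (X i.succ * C (p j.succ)) : MvPolynomial (Fin (N + 1)) K)
              = C (c i) * X i.succ * C (p j.succ) := fun i => by ring
          simp only [e1, e2]
          ring
        have h3 : (C (eval p (linForm c))⁻¹ * C (eval p (linForm c))
            : MvPolynomial (Fin (N + 1)) K) = 1 := by
          rw [← map_mul, inv_mul_cancel₀ hp, map_one]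
        rw [h2]
        simp only [u, affPt, div_eq_mul_inv, map_mul]
        linear_combination (-X j.succ) * h3
      rw [h1]
      exact Ideal.mul_mem_left _ _ (Ideal.add_mem _ (hgen _ _)
        (Ideal.sum_mem _ fun i _ => Ideal.mul_mem_left _ _ (hgen _ _)))
    have heq : homog c h.totalDegree (fun j => X j.succ) h
        = homog c h.totalDegree u (shift (affPt c p) h) := by
      apply mul_right_cancel₀ (linForm_ne_zero c)
      apply MvPolynomial.funext
      intro z
      by_cases hz : eval z (linForm c) = 0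
      · simp [hz]
      rw [map_mul, map_mul, eval_homog c _ _ h le_rfl z hz,
        eval_homog c _ u _ (totalDegree_shift_le _ _) z hz, eval_shift]
      congr 4
      ext j
      simp only [u, map_sub, map_mul, eval_X, eval_C]
      field_simp
      ring
    rw [heq, homog]
    refine Ideal.sum_mem _ fun β hβ => Ideal.mul_mem_left _ _ (Ideal.mul_mem_right _ _ ?_)
    have h1 : k ≤ degree β := (mem_pow_idealOfVars_iff k _).1 hO β hβ
    apply Ideal.pow_le_pow_right h1
    rw [degree_eq_sum, ← Finset.prod_pow_eq_pow_sum]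
    exact Ideal.prod_mem_prod fun j _ => Ideal.pow_mem_pow (hu j) _

/-- Demailly's inequality for fat points, in witness form. -/
theorem demailly [Infinite K] {M : ℕ} {ι : Type*} [Finite ι] (i0 : ι)
    (pts : ι → Fin (M + 1 + 1) → K) (hne : ∀ i, pts i ≠ 0) (μ : ι → ℕ) (hμ : ∀ i, 1 ≤ μ i)
    (r m : ℕ) (hr : 1 ≤ r) (hm : 1 ≤ m) (f : MvPolynomial (Fin (M + 1 + 1)) K) (hf : f ≠ 0)
    (hfI : ∀ i, f ∈ ptIdeal (pts i) ^ (m * μ i)) :
    ∃ F : MvPolynomial (Fin (M + 1 + 1)) K, F ≠ 0 ∧ (∀ i, F ∈ ptIdeal (pts i) ^ (r * μ i)) ∧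
      m * (F.totalDegree + M) ≤ (r + M) * f.totalDegree := by
  obtain ⟨c, hc⟩ := exists_linForm pts hne
  obtain ⟨g, hg0, hg1, hg2⟩ := exists_dehom c f hf
  obtain ⟨h, hh0, hh1, hh2⟩ := core (M := M) (by simp) (fun i => affPt c (pts i))
    (fun i => m * μ i) (fun i => r * μ i) (r + M) m f.totalDegree hm g hg0 hg1
    (fun i => hg2 _ _ (hc i) (hfI i))
    (fun i => by
      have := Nat.mul_le_mul_left (m * M) (hμ i)
      nlinarith)
    i0 (Nat.mul_pos hr (hμ i0))
  obtain ⟨F, hF0, hF1, hF2⟩ := exists_hom c h hh0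
  exact ⟨F, hF0, fun i => hF2 _ _ (hc i) (hh1 i),
    le_trans (Nat.mul_le_mul_left _ (by omega)) hh2⟩

theorem exists_mem_pow [Infinite K] {M : ℕ} {ι : Type*} [Finite ι]
    (pts : ι → Fin (M + 1 + 1) → K) (hne : ∀ i, pts i ≠ 0) (k : ι → ℕ) :
    ∃ F : MvPolynomial (Fin (M + 1 + 1)) K, F ≠ 0 ∧ ∀ i, F ∈ ptIdeal (pts i) ^ (k i) := by
  classical
  have := Fintype.ofFinite ι
  obtain ⟨c, hc⟩ := exists_linForm pts hne
  have h1 : ∀ i, ∃ F : MvPolynomial (Fin (M + 1 + 1)) K, F ≠ 0 ∧ F ∈ ptIdeal (pts i) := by
    intro i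
    obtain ⟨F, hF0, -, hF2⟩ := exists_hom c (X 0 - C (affPt c (pts i) 0)) (by
      intro h0
      have := congrArg (eval (fun _ => affPt c (pts i) 0 + 1)) h0
      simp at this)
    refine ⟨F, hF0, ?_⟩
    have := hF2 (pts i) 1 (hc i) (by rw [ord_one_iff]; simp)
    rwa [pow_one] at this
  choose F hF0 hF1 using h1
  refine ⟨∏ i, F i ^ k i, Finset.prod_ne_zero_iff.2 fun i _ => pow_ne_zero _ (hF0 i), fun i => ?_⟩
  rw [← Finset.mul_prod_erase _ _ (Finset.mem_univ i)]
  exact Ideal.mul_mem_right _ _ (Ideal.pow_mem_pow (hF1 i) _)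

end Pool.Agent.MP_ef83ea_ag
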