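import Pool.Agent.MP_ef83ea_ag.CharP

/-!
Transfer of the key inequality from perfect fields of prime characteristic to all fields,
by spreading out over a finitely generated ring.
-/

set_option autoImplicit false

namespace Pool.Agent.MP_ef83ea_ag

open MvPolynomial Finsupp

universe u

theorem int_isJacobsonRing : IsJacobsonRing ℤ := by
  rw [isJacobsonRing_iff_prime_eq]
  intro P hP
  by_cases h : P = ⊥
  · subst h
    rw [eq_bot_iff]
    intro x hx
    rw [Ideal.mem_bot]
    by_contra hx0
    obtain ⟨q, hq1, hq2⟩ := Nat.exists_infinite_primes (x.natAbs + 1)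
    have hqp : Prime (q : ℤ) := Nat.prime_iff_prime_int.1 hq2
    have hmax : (Ideal.span {(q : ℤ)}).IsMaximal :=
      PrincipalIdealRing.isMaximal_of_irreducible hqp.irreducible
    have hx2 : x ∈ Ideal.span {(q : ℤ)} := by
      rw [Ideal.jacobson, Ideal.mem_sInf] at hx
      exact hx ⟨bot_le, hmax⟩
    rw [Ideal.mem_span_singleton, Int.natCast_dvd] at hx2
    have := Nat.le_of_dvd (Int.natAbs_pos.2 hx0) hx2
    omega
  · have : P.IsMaximal := IsPrime.to_maximal_ideal h
    exact Ideal.jacobson_eq_self_of_isMaximal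

theorem exists_spread (K : Type u) [Field K] (T : Set K) (hT : T.Finite) :
    ∃ (A : Subring K) (_ : T ⊆ A) (F : Type u) (_ : Field F) (p : ℕ) (_ : Fact p.Prime)
      (_ : CharP F p) (_ : PerfectRing F p), Nonempty (A →+* F) := by
  let A : Subalgebra ℤ K := Algebra.adjoin ℤ T
  have hft : Algebra.FiniteType ℤ A := .adjoin_of_finite hT
  obtain ⟨m, hm⟩ := Ideal.exists_maximal A
  let : Field (A ⧸ m) := Ideal.Quotient.field m
  have := int_isJacobsonRing
  have hfin : Module.Finite ℤ (A ⧸ m) := finite_of_finite_type_of_isJacobsonRing ℤ (A ⧸ m)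
  obtain ⟨p, hp⟩ := CharP.exists (A ⧸ m)
  have hp0 : p ≠ 0 := by
    rintro rfl
    have : CharZero (A ⧸ m) := CharP.charP_to_charZero _
    have hinj : Function.Injective (algebraMap ℤ (A ⧸ m)) := by
      intro x y hxy
      simpa using hxy
    exact Int.not_isField (isField_of_isIntegral_of_isField hinj (Field.toIsField _))
  have hprime : p.Prime := (CharP.char_is_prime_or_zero (A ⧸ m) p).resolve_right hp0
  have : Fact p.Prime := ⟨hprime⟩
  have : CharP (AlgebraicClosure (A ⧸ m)) p :=
    charP_of_injective_algebraMap (algebraMap (A ⧸ m) _).injective p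
  exact ⟨A.toSubring, Algebra.subset_adjoin, AlgebraicClosure (A ⧸ m), inferInstance, p,
    inferInstance, inferInstance, IsAlgClosed.perfectRing _ p,
    ⟨(algebraMap (A ⧸ m) (AlgebraicClosure (A ⧸ m))).comp (Ideal.Quotient.mk m)⟩⟩

variable {σ ι : Type*}

/-- matrix of the linear conditions of vanishing -/
noncomputable def condMat {R : Type*} [CommRing R] (P : ι → σ → R)
    (rows : Finset (ι × (σ →₀ ℕ))) (cols : Finset (σ →₀ ℕ)) : Matrix rows cols R :=
  Matrix.of fun r m => coeff r.1.2 (shift (P r.1.1) (monomial m.1 1))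

theorem condMat_map {R S : Type*} [CommRing R] [CommRing S] (φ : R →+* S) (P : ι → σ → R)
    (rows : Finset (ι × (σ →₀ ℕ))) (cols : Finset (σ →₀ ℕ)) :
    (condMat P rows cols).map φ = condMat (fun i j => φ (P i j)) rows cols := by
  ext r m
  simp only [condMat, Matrix.map_apply, Matrix.of_apply]
  rw [← coeff_map, map_shift, map_monomial, map_one]

theorem condMat_mulVec {R : Type*} [CommRing R] (P : ι → σ → R)
    (rows : Finset (ι × (σ →₀ ℕ))) (cols : Finset (σ →₀ ℕ)) (x : cols → R) (r : rows) :
    (condMat P rows cols).mulVec x r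
      = coeff r.1.2 (shift (P r.1.1) (∑ m : cols, monomial m.1 (x m))) := by
  rw [map_sum, coeff_sum]
  simp only [condMat, Matrix.mulVec, dotProduct, Matrix.of_apply]
  refine Finset.sum_congr rfl fun m _ => ?_
  have : (monomial m.1 (x m) : MvPolynomial σ R) = x m • monomial m.1 1 := by
    rw [smul_monomial, smul_eq_mul, mul_one]
  rw [this, map_smul, coeff_smul, smul_eq_mul, mul_comm]

theorem coeff_sum_cols {R : Type*} [CommRing R] (cols : Finset (σ →₀ ℕ)) (x : cols → R)
    (m : cols) : coeff m.1 (∑ m : cols, monomial m.1 (x m) : MvPolynomial σ R) = x m := by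
  classical
  rw [coeff_sum, Finset.sum_eq_single m]
  · simp
  · intro b _ hb
    rw [coeff_monomial, if_neg]
    intro h
    exact hb (Subtype.ext h)
  · simp

theorem support_sum_cols {R : Type*} [CommRing R] (cols : Finset (σ →₀ ℕ)) (x : cols → R) :
    (∑ m : cols, monomial m.1 (x m) : MvPolynomial σ R).support ⊆ cols := by
  classical
  intro s hs
  by_contra hcon
  rw [MvPolynomial.mem_support_iff, coeff_sum] at hs
  apply hs
  refine Finset.sum_eq_zero fun m _ => ?_
  rw [coeff_monomial, if_neg]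
  intro h
  exact hcon (h ▸ m.2)

theorem sum_cols_eq {R : Type*} [CommRing R] (cols : Finset (σ →₀ ℕ)) (f : MvPolynomial σ R)
    (hf : f.support ⊆ cols) : (∑ m : cols, monomial m.1 (coeff m.1 f)) = f := by
  rw [Finset.sum_coe_sort cols (fun m => monomial m (coeff m f))]
  conv_rhs => rw [f.as_sum]
  symm
  apply Finset.sum_subset hf
  intro x _ hx
  rw [MvPolynomial.notMem_support_iff] at hx
  simp [hx]

theorem exists_lift {K : Type*} [Field K] (A : Subring K) (g : MvPolynomial σ K)
    (hg : ∀ m ∈ g.support, coeff m g ∈ A) :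
    ∃ gA : MvPolynomial σ A, MvPolynomial.map A.subtype gA = g := by
  refine ⟨∑ m : g.support, monomial m.1 ⟨coeff m.1 g, hg _ m.2⟩, ?_⟩
  rw [map_sum]
  simp only [map_monomial, Subring.coe_subtype]
  exact sum_cols_eq g.support g subset_rfl

theorem totalDegree_le_of_support_subset' {R S : Type*} [CommRing R] [CommRing S]
    {f : MvPolynomial σ R} {g : MvPolynomial σ S} (h : f.support ⊆ g.support) :
    f.totalDegree ≤ g.totalDegree :=
  Finset.sup_mono h

/-- The key inequality over an arbitrary field. -/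
theorem core {K : Type u} [Field K] [Fintype σ] [Finite ι] {M : ℕ}
    (hM : Fintype.card σ = M + 1)
    (P : ι → σ → K) (w v : ι → ℕ) (a b d : ℕ) (hb : 0 < b)
    (g : MvPolynomial σ K) (hg : g ≠ 0) (hdeg : g.totalDegree ≤ d)
    (hord : ∀ i, Ord (P i) (w i) g) (hv : ∀ i, b * (v i + M) ≤ a * w i)
    (i0 : ι) (hi0 : 1 ≤ v i0) :
    ∃ h : MvPolynomial σ K, h ≠ 0 ∧ (∀ i, Ord (P i) (v i) h) ∧
      b * (h.totalDegree + M) ≤ a * d := by
  classical
  by_contra hcon
  have hrfin : {r : ι × (σ →₀ ℕ) | degree r.2 < v r.1}.Finite := by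
    have : {r : ι × (σ →₀ ℕ) | degree r.2 < v r.1}
        ⊆ ⋃ i, ({i} : Set ι) ×ˢ {f : σ →₀ ℕ | degree f < v i} := by
      rintro ⟨i, f⟩ h
      simpa using h
    exact (Set.finite_iUnion fun i =>
      (Set.finite_singleton i).prod (finite_of_degree_lt _)).subset this
  have hcfin : {m : σ →₀ ℕ | b * (degree m + M) ≤ a * d}.Finite := by
    refine (finite_of_degree_le (a * d)).subset ?_
    intro m hm
    simp only [Set.mem_ofPred_eq] at *
    nlinarith
  set rows := hrfin.toFinset with hrows
  set cols := hcfin.toFinset with hcols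
  have hr : ∀ r, r ∈ rows ↔ degree r.2 < v r.1 := fun r => by simp [hrows]
  have hc : ∀ m, m ∈ cols ↔ b * (degree m + M) ≤ a * d := fun m => by simp [hcols]
  have hker : LinearMap.ker (Matrix.toLin' (condMat P rows cols)) = ⊥ := by
    rw [LinearMap.ker_eq_bot']
    intro x hx
    by_contra hx0
    apply hcon
    have hne : (∑ m : cols, monomial m.1 (x m) : MvPolynomial σ K) ≠ 0 := by
      intro h0
      apply hx0
      ext m
      rw [← coeff_sum_cols cols x m, h0]
      simp
    refine ⟨_, hne, ?_, ?_⟩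
    · intro i
      rw [ord_iff]
      intro β hβ
      have := condMat_mulVec P rows cols x ⟨(i, β), (hr _).2 hβ⟩
      rw [← this, ← Matrix.toLin'_apply, hx]
      rfl
    · obtain ⟨s, hs, h2⟩ := exists_degree_eq_totalDegree hne
      rw [← h2]
      exact (hc s).1 (support_sum_cols cols x hs)
  obtain ⟨L, hL⟩ := LinearMap.exists_leftInverse_of_injective _ hker
  set B := LinearMap.toMatrix' L with hB
  have hBM : B * condMat P rows cols = 1 := by
    rw [hB, ← LinearMap.toMatrix'_toLin' (condMat P rows cols), ← LinearMap.toMatrix'_comp, hL,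
      LinearMap.toMatrix'_id]
  obtain ⟨m0, hm0⟩ := support_nonempty.2 hg
  have hTfin : (Set.range (fun x : ι × σ => P x.1 x.2) ∪ (fun m => coeff m g) '' g.support
      ∪ {(coeff m0 g)⁻¹} ∪ Set.range (fun x : cols × rows => B x.1 x.2)).Finite :=
    (((Set.finite_range _).union (g.support.finite_toSet.image _)).union
      (Set.finite_singleton _)).union (Set.finite_range _)
  obtain ⟨A, hA, F, _, p, _, _, _, ⟨ψ⟩⟩ := exists_spread K _ hTfin
  have hPA : ∀ i j, P i j ∈ A := fun i j =>
    hA (Or.inl (Or.inl (Or.inl ⟨(i, j), rfl⟩)))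
  have hgA : ∀ m ∈ g.support, coeff m g ∈ A := fun m hm =>
    hA (Or.inl (Or.inl (Or.inr ⟨m, hm, rfl⟩)))
  have hiA : (coeff m0 g)⁻¹ ∈ A := hA (Or.inl (Or.inr rfl))
  have hBA : ∀ x y, B x y ∈ A := fun x y => hA (Or.inr ⟨(x, y), rfl⟩)
  let PA : ι → σ → A := fun i j => ⟨P i j, hPA i j⟩
  let BA : Matrix cols rows A := Matrix.of fun x y => ⟨B x y, hBA x y⟩
  obtain ⟨gA, hgA2⟩ := exists_lift A g hgA
  have hsub : Function.Injective A.subtype := Subtype.val_injective
  have hBMA : BA * condMat PA rows cols = 1 := by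
    apply Matrix.map_injective hsub
    simp only
    rw [Matrix.map_mul, condMat_map, Matrix.map_one _ (map_zero _) (map_one _)]
    exact hBM
  have hBMF : BA.map ψ * condMat (fun i j => ψ (PA i j)) rows cols = 1 := by
    rw [← condMat_map, ← Matrix.map_mul, hBMA, Matrix.map_one _ (map_zero _) (map_one _)]
  have hgF0 : MvPolynomial.map ψ gA ≠ 0 := by
    intro h0
    have h1 : coeff m0 gA * ⟨_, hiA⟩ = 1 := by
      apply hsub
      rw [map_mul, ← coeff_map, hgA2, map_one]
      exact mul_inv_cancel₀ (MvPolynomial.mem_support_iff.1 hm0)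
    have h2 := congrArg ψ h1
    rw [map_mul, ← coeff_map, h0, coeff_zero, zero_mul, map_one] at h2
    exact zero_ne_one h2
  have hgFd : (MvPolynomial.map ψ gA).totalDegree ≤ d := by
    refine le_trans (totalDegree_le_of_support_subset' ?_) hdeg
    rw [← hgA2, support_map_of_injective _ hsub]
    exact support_map_subset _ _
  have hgFO : ∀ i, Ord (fun j => ψ (PA i j)) (w i) (MvPolynomial.map ψ gA) := by
    intro i
    apply Ord.map
    apply Ord.of_map A.subtype hsub
    rw [hgA2]
    exact hord i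
  obtain ⟨h, hh0, hh1, hh2⟩ := core_charP (p := p) hM (fun i j => ψ (PA i j)) w v a b d hb _
    hgF0 hgFd hgFO hv i0 hi0
  have hsupp : h.support ⊆ cols := by
    intro s hs
    rw [hc]
    exact le_trans (Nat.mul_le_mul_left _ (Nat.add_le_add_right (degree_le_totalDegree hs) _)) hh2
  have hx : (condMat (fun i j => ψ (PA i j)) rows cols).mulVec (fun m => coeff m.1 h) = 0 := by
    ext r
    rw [condMat_mulVec, sum_cols_eq cols h hsupp]
    exact (ord_iff.1 (hh1 r.1.1)) _ ((hr _).1 r.2)
  have hx2 : (fun m : cols => coeff m.1 h) = 0 := by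
    have := congrArg (fun y => (BA.map ψ).mulVec y) hx
    simpa [Matrix.mulVec_mulVec, hBMF] using this
  apply hh0
  rw [← sum_cols_eq cols h hsupp]
  refine Finset.sum_eq_zero fun m _ => ?_
  have := congrFun hx2 m
  simp only [Pi.zero_apply] at this
  rw [this, map_zero]

end Pool.Agent.MP_ef83ea_ag
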